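import Pool.Agent.Work.MP_1670b2_al.Statement
import Pool.Agent.Work.MP_1670b2_al.Transfer

/-!
MP_1670b2_al: a Spechtian variety without finite basic superrank.
-/

namespace Pool.Agent.Results.MP_1670b2_al.NoFiniteSuperrank

open Pool.Agent.MP_1670b2_al.Stmt

universe u

/-- Over every field `F` of characteristic `0`, the variety of algebras defined by the two
identities `x₀ (x₁ x₂) = 0` and
`((x₀x₁)x₂)x₃ - ((x₀x₂)x₁)x₃ - ((x₀x₃)x₁)x₂ + ((x₀x₃)x₂)x₁ = 0` is Spechtian and does not have a
finite basic superrank. -/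
theorem result (F : Type u) [Field F] [CharZero F] :
    Spechtian (variety {I1 F, I2 F}) ∧ ¬ HasFiniteBasicSuperrank (variety {I1 F, I2 F}) := by
  refine ⟨spechtian_of ?_, fun h => ?_⟩
  · rw [image_eq]
    exact Pool.Agent.MP_1670b2_al.spechtian_EE F
  · have h2 := hasFiniteBasicSuperrank_of h
    rw [image_eq] at h2
    exact Pool.Agent.MP_1670b2_al.not_superrank F h2

end Pool.Agent.Results.MP_1670b2_al.NoFiniteSuperrank
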